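import Pool.Agent.H39.HB.CntCore
import Pool.Agent.H92.HB.Stm2

/-!
# Project HB (helper92), job CNT (helper39)
-/

set_option autoImplicit false

namespace Pool.Agent.H39.HB

open Pool.Agent.H92.HB

/-- CNT -/
theorem t_CNT : S_CNT := by
  intro G _ _ A _ _ _ n y M sep rel
  exact cnt G A n y M sep rel

end Pool.Agent.H39.HB
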