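import Mathlib

/-!
# Project HB (helper92), job CNT (helper39): the core, over Mathlib only
-/

set_option autoImplicit false
set_option linter.all false

open scoped Classical

namespace Pool.Agent.H39.HB

lemma emb_aux : AddSubgroup.zmultiples (1 : ℚ) ≤
    (AddSubgroup.zmultiples (1 : ℝ)).comap (Rat.castHom ℝ).toAddMonoidHom := by
  intro x hx
  obtain ⟨n, rfl⟩ := AddSubgroup.mem_zmultiples_iff.1 hx
  refine AddSubgroup.mem_comap.2 (AddSubgroup.mem_zmultiples_iff.2 ⟨n, ?_⟩)
  simp

/-- `ℚ/ℤ` in `ℝ/ℤ` -/
noncomputable def emb0 : AddCircle (1 : ℚ) →+ AddCircle (1 : ℝ) :=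
  QuotientAddGroup.map (AddSubgroup.zmultiples (1 : ℚ)) (AddSubgroup.zmultiples (1 : ℝ))
    ((Rat.castHom ℝ).toAddMonoidHom) emb_aux

lemma emb0_inj : Function.Injective emb0 := by
  rw [injective_iff_map_eq_zero]
  intro x hx
  induction x using QuotientAddGroup.induction_on with
  | H q =>
    have h1 : ((q : ℝ) : AddCircle (1 : ℝ)) = 0 := hx
    rw [QuotientAddGroup.eq_zero_iff] at h1
    rw [QuotientAddGroup.eq_zero_iff]
    obtain ⟨n, hn⟩ := AddSubgroup.mem_zmultiples_iff.1 h1
    refine AddSubgroup.mem_zmultiples_iff.2 ⟨n, ?_⟩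
    have h2 : ((n : ℚ) : ℝ) = (q : ℝ) := by
      rw [← hn]
      simp
    have h3 : (n : ℚ) = q := by exact_mod_cast h2
    simpa using h3

/-- an injective character of `ℚ/ℤ` -/
noncomputable def emb : AddChar (AddCircle (1 : ℚ)) ℂ where
  toFun x := (AddCircle.toCircle (emb0 x) : ℂ)
  map_zero_eq_one' := by
    rw [map_zero, AddCircle.toCircle_zero]
    rfl
  map_add_eq_mul' x y := by
    rw [map_add, AddCircle.toCircle_add]
    rfl

lemma emb_inj {x : AddCircle (1 : ℚ)} (hx : emb x = 1) : x = 0 := by
  have h1 : AddCircle.toCircle (emb0 x) = 1 := by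
    apply Subtype.ext
    exact hx
  rw [← AddCircle.toCircle_zero (T := 1)] at h1
  have h2 := AddCircle.injective_toCircle one_ne_zero h1
  exact emb0_inj (by rw [h2, map_zero])

/-- a finite abelian group which embeds in the dual of a finite abelian group -/
lemma card_dvd_of_pairing (A C : Type) [AddCommGroup A] [AddCommGroup C] [Finite C]
    (χ : A →+ (C →+ AddCircle (1 : ℚ))) (hχ : ∀ a, (∀ c, χ a c = 0) → a = 0) :
    Nat.card A ∣ Nat.card C := by
  have := Fintype.ofFinite C
  let f : A →+ AddChar C ℂ :=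
    { toFun := fun a => emb.compAddMonoidHom (χ a)
      map_zero' := by
        ext c
        simp
      map_add' := fun a b => by
        ext c
        simp [AddChar.map_add_eq_mul] }
  have hf : Function.Injective f := by
    rw [injective_iff_map_eq_zero]
    intro a ha
    refine hχ a fun c => emb_inj ?_
    have h1 := congrArg (fun ψ : AddChar C ℂ => ψ c) ha
    simpa [f] using h1
  have h1 := AddSubgroup.card_dvd_of_injective f hf
  rwa [Nat.card_eq_fintype_card (α := AddChar C ℂ), AddChar.card_eq,
    ← Nat.card_eq_fintype_card] at h1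

section act

variable {G : Type} [CommGroup G] {A : Type} [AddCommGroup A] [DistribMulAction G A]

/-- the action of `G` on the dual group -/
noncomputable def rho (G : Type) [CommGroup G] (A : Type) [AddCommGroup A] [DistribMulAction G A] :
    G →* AddMonoid.End (A →+ AddCircle (1 : ℚ)) where
  toFun g := AddMonoidHom.mk' (fun y => y.comp (DistribMulAction.toAddMonoidHom A g))
    (fun y z => by ext a; rfl)
  map_one' := by
    ext y a
    show y ((1 : G) • a) = y a
    rw [one_smul]
  map_mul' g h := by
    ext y a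
    show y ((g * h) • a) = y (h • g • a)
    rw [mul_comm, mul_smul]

lemma rho_apply (g : G) (y : A →+ AddCircle (1 : ℚ)) (a : A) : rho G A g y a = y (g • a) := rfl

/-- the action of the group ring -/
noncomputable def Ph (G : Type) [CommGroup G] (A : Type) [AddCommGroup A] [DistribMulAction G A] :
    MonoidAlgebra ℤ G →ₐ[ℤ] AddMonoid.End (A →+ AddCircle (1 : ℚ)) :=
  MonoidAlgebra.lift ℤ _ G (rho G A)

lemma Ph_apply [Fintype G] (r : MonoidAlgebra ℤ G) (y : A →+ AddCircle (1 : ℚ)) (a : A) :
    Ph G A r y a = ∑ g : G, r.coeff g • y (g • a) := by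
  unfold Ph
  rw [MonoidAlgebra.lift_apply, Finsupp.sum_fintype r.coeff (fun g b => b • rho G A g)
    (fun g => zero_smul ℤ _)]
  have h1 : ∀ (s : Finset G), (∑ g ∈ s, r.coeff g • rho G A g) y a =
      ∑ g ∈ s, r.coeff g • y (g • a) := by
    intro s
    induction s using Finset.induction_on with
    | empty => simp
    | insert g s hg ih =>
      rw [Finset.sum_insert hg, Finset.sum_insert hg, ← ih]
      rfl
  exact h1 _

end act

theorem cnt (G : Type) [CommGroup G] [Fintype G] (A : Type) [AddCommGroup A] [Finite A]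
    [DistribMulAction G A] (n : ℕ) (y : Fin n → (A →+ AddCircle (1 : ℚ)))
      (M : Matrix (Fin n) (Fin n) (MonoidAlgebra ℤ G))
      (sep : ∀ a, (∀ i, ∀ g : G, y i (g • a) = 0) → a = 0)
      (rel : ∀ i a, ∑ j, ∑ g : G, (M i j).coeff g • y j (g • a) = 0) :
      (Nat.card A : ℤ) ∣ Algebra.norm ℤ M.det := by
  by_cases h0 : Algebra.norm ℤ M.det = 0
  · rw [h0]
    exact dvd_zero _
  let T : (Fin n → MonoidAlgebra ℤ G) →ₗ[MonoidAlgebra ℤ G] (Fin n → MonoidAlgebra ℤ G) :=
    Matrix.toLin' M.transpose
  have hT : LinearMap.det T = M.det := by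
    rw [LinearMap.det_toLin', Matrix.det_transpose]
  let TZ : (Fin n → MonoidAlgebra ℤ G) →ₗ[ℤ] (Fin n → MonoidAlgebra ℤ G) := T.restrictScalars ℤ
  have hTZ : LinearMap.det TZ = Algebra.norm ℤ M.det := by
    rw [← hT]
    exact LinearMap.det_restrictScalars
  have hinj : Function.Injective TZ := by
    have h1 : LinearMap.det TZ ≠ 0 := by rw [hTZ]; exact h0
    let b := Module.Free.chooseBasis ℤ (Fin n → MonoidAlgebra ℤ G)
    rw [← LinearMap.det_toMatrix b] at h1
    have h2 := Matrix.mulVec_injective_of_det_ne_zero h1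
    intro x x' hx
    have h3 : (LinearMap.toMatrix b b TZ).mulVec (b.repr x) =
        (LinearMap.toMatrix b b TZ).mulVec (b.repr x') := by
      rw [LinearMap.toMatrix_mulVec_repr, LinearMap.toMatrix_mulVec_repr, hx]
    exact b.repr.injective (DFunLike.coe_injective (h2 h3))
  let N : Submodule ℤ (Fin n → MonoidAlgebra ℤ G) := LinearMap.range TZ
  let e : (Fin n → MonoidAlgebra ℤ G) ≃ₗ[ℤ] N := LinearEquiv.ofInjective TZ hinj
  have hcard : (Algebra.norm ℤ M.det).natAbs = Nat.card ((Fin n → MonoidAlgebra ℤ G) ⧸ N) := by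
    rw [← Submodule.natAbs_det_equiv N e, ← hTZ]
    congr 2
  have hfin : Finite ((Fin n → MonoidAlgebra ℤ G) ⧸ N) := by
    refine Nat.finite_of_card_ne_zero ?_
    rw [← hcard]
    exact Int.natAbs_ne_zero.2 h0
  -- the pairing
  let P : A →+ ((Fin n → MonoidAlgebra ℤ G) →+ AddCircle (1 : ℚ)) :=
    AddMonoidHom.mk' (fun a => AddMonoidHom.mk' (fun c => ∑ j, Ph G A (c j) (y j) a) (by
      intro c d
      rw [← Finset.sum_add_distrib]
      refine Finset.sum_congr rfl fun j _ => ?_
      rw [Pi.add_apply, map_add]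
      rfl)) (by
      intro a b
      refine AddMonoidHom.ext fun c => ?_
      show ∑ j, Ph G A (c j) (y j) (a + b) = ∑ j, Ph G A (c j) (y j) a + ∑ j, Ph G A (c j) (y j) b
      rw [← Finset.sum_add_distrib]
      exact Finset.sum_congr rfl fun j _ => map_add _ _ _)
  have hPN : ∀ a, ∀ c ∈ N, P a c = 0 := by
    rintro a _ ⟨x, rfl⟩
    have h1 : ∀ j, TZ x j = ∑ i, x i * M i j := by
      intro j
      show (Matrix.toLin' M.transpose x) j = _
      rw [Matrix.toLin'_apply, Matrix.mulVec, dotProduct]
      exact Finset.sum_congr rfl fun i _ => by rw [Matrix.transpose_apply, mul_comm]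
    show ∑ j, Ph G A (TZ x j) (y j) a = 0
    have h2 : ∀ i, ∑ j, Ph G A (M i j) (y j) = 0 := by
      intro i
      ext a
      rw [AddMonoidHom.finset_sum_apply]
      simp only [Ph_apply]
      exact rel i a
    have h3 : ∑ j, Ph G A (TZ x j) (y j) = 0 := by
      calc ∑ j, Ph G A (TZ x j) (y j) = ∑ j, ∑ i, Ph G A (x i) (Ph G A (M i j) (y j)) := by
            refine Finset.sum_congr rfl fun j _ => ?_
            rw [h1 j, map_sum]
            simp only [map_mul]
            have h4 : ∀ (s : Finset (Fin n)), (∑ i ∈ s, Ph G A (x i) * Ph G A (M i j)) (y j) =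
                ∑ i ∈ s, Ph G A (x i) (Ph G A (M i j) (y j)) := by
              intro s
              induction s using Finset.induction_on with
              | empty => simp
              | insert g s hg ih =>
                rw [Finset.sum_insert hg, Finset.sum_insert hg, ← ih]
                rfl
            exact h4 _
        _ = ∑ i, Ph G A (x i) (∑ j, Ph G A (M i j) (y j)) := by
            rw [Finset.sum_comm]
            exact Finset.sum_congr rfl fun i _ => (map_sum _ _ _).symm
        _ = 0 := by
            refine Finset.sum_eq_zero fun i _ => ?_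
            rw [h2 i, map_zero]
    have h5 := congrArg (fun f : A →+ AddCircle (1 : ℚ) => f a) h3
    simpa [AddMonoidHom.finset_sum_apply] using h5
  let χ : A →+ (((Fin n → MonoidAlgebra ℤ G) ⧸ N) →+ AddCircle (1 : ℚ)) :=
    AddMonoidHom.mk' (fun a => (N.liftQ (P a).toIntLinearMap (by
      intro c hc
      exact hPN a c hc)).toAddMonoidHom) (by
      intro a b
      refine AddMonoidHom.ext fun c => ?_
      obtain ⟨c, rfl⟩ := N.mkQ_surjective c
      show P (a + b) c = P a c + P b c
      rw [map_add]
      rfl)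
  have h6 := card_dvd_of_pairing A ((Fin n → MonoidAlgebra ℤ G) ⧸ N) χ (by
    intro a ha
    refine sep a fun i g => ?_
    have h7 := ha (N.mkQ (Pi.single i (MonoidAlgebra.single g 1)))
    have h8 : P a (Pi.single i (MonoidAlgebra.single g 1)) = 0 := h7
    have h9 : P a (Pi.single i (MonoidAlgebra.single g 1)) = y i (g • a) := by
      show ∑ j, Ph G A ((Pi.single i (MonoidAlgebra.single g (1 : ℤ)) :
        Fin n → MonoidAlgebra ℤ G) j) (y j) a = _
      rw [Finset.sum_eq_single i]
      · rw [Pi.single_eq_same]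
        unfold Ph
        rw [MonoidAlgebra.lift_single, one_smul]
        rfl
      · intro j _ hj
        rw [Pi.single_eq_of_ne hj, map_zero]
        rfl
      · intro h
        exact absurd (Finset.mem_univ i) h
    rw [← h9, h8])
  rw [← hcard] at h6
  exact Int.natCast_dvd.2 h6

end Pool.Agent.H39.HB
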